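import Pool.Agent.H24.Triples

namespace Pool.Agent.Results.MP_dc3585_lc.Triples

open Cardinal Pool.Agent.H24.Triples

universe u

lemma sorted_unique {S : Type*} [LinearOrder S] {x y z x' y' z' : S} (h1 : x < y) (h2 : y < z)
    (h3 : x' < y') (h4 : y' < z') (h : ({x, y, z} : Finset S) = {x', y', z'}) :
    x = x' ∧ y = y' ∧ z = z' := by
  have m1 : x ∈ ({x', y', z'} : Finset S) := by rw [← h]; simp
  have m2 : x' ∈ ({x, y, z} : Finset S) := by rw [h]; simp
  have m3 : z ∈ ({x', y', z'} : Finset S) := by rw [← h]; simp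
  have m4 : z' ∈ ({x, y, z} : Finset S) := by rw [h]; simp
  have m5 : y ∈ ({x', y', z'} : Finset S) := by rw [← h]; simp
  simp only [Finset.mem_insert, Finset.mem_singleton] at m1 m2 m3 m4 m5
  have hx : x = x' := by
    rcases m1 with m1 | m1 | m1
    · exact m1
    · rcases m2 with m2 | m2 | m2 <;> order
    · rcases m2 with m2 | m2 | m2 <;> order
  have hz : z = z' := by
    rcases m3 with m3 | m3 | m3
    · rcases m4 with m4 | m4 | m4 <;> order
    · rcases m4 with m4 | m4 | m4 <;> order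
    · exact m3
  refine ⟨hx, ?_, hz⟩
  rcases m5 with m5 | m5 | m5
  · order
  · exact m5
  · order

lemma sub_four {S : Type*} [DecidableEq S] {a b c d : S}
    (t : Finset S) (ht : t ⊆ {a, b, c, d}) (hab : a ≠ b) (hac : a ≠ c) (had : a ≠ d)
    (hbc : b ≠ c) (hbd : b ≠ d) (hcd : c ≠ d) (h3 : t.card = 3) :
    t = {a, b, c} ∨ t = {a, b, d} ∨ t = {a, c, d} ∨ t = {b, c, d} := by
  have h4 : ({a, b, c, d} : Finset S).card = 4 := by
    rw [Finset.card_insert_of_notMem, Finset.card_insert_of_notMem,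
      Finset.card_insert_of_notMem, Finset.card_singleton]
    · simpa using hcd
    · simp [hbc, hbd]
    · simp [hab, hac, had]
  obtain ⟨x, hx, hxt⟩ : ∃ x ∈ ({a, b, c, d} : Finset S), x ∉ t := by
    by_contra h
    push Not at h
    have := Finset.card_le_card (show ({a, b, c, d} : Finset S) ⊆ t from h)
    omega
  have hsub : t ⊆ ({a, b, c, d} : Finset S).erase x := by
    intro y hy
    rw [Finset.mem_erase]
    exact ⟨fun h => hxt (h ▸ hy), ht hy⟩
  have heq : t = ({a, b, c, d} : Finset S).erase x := by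
    apply Finset.eq_of_subset_of_card_le hsub
    rw [Finset.card_erase_of_mem hx, h4, h3]
  simp only [Finset.mem_insert, Finset.mem_singleton] at hx
  rcases hx with hx | hx | hx | hx
  · right; right; right
    rw [heq, hx]
    ext y
    simp only [Finset.mem_erase, Finset.mem_insert, Finset.mem_singleton]
    constructor
    · rintro ⟨h1, h2 | h2 | h2 | h2⟩ <;> simp_all
    · rintro (h | h | h) <;> subst h <;> simp [hab.symm, hac.symm, had.symm]
  · right; right; left
    rw [heq, hx]
    ext y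
    simp only [Finset.mem_erase, Finset.mem_insert, Finset.mem_singleton]
    constructor
    · rintro ⟨h1, h2 | h2 | h2 | h2⟩ <;> simp_all
    · rintro (h | h | h) <;> subst h <;> simp [hab, hbc.symm, hbd.symm]
  · right; left
    rw [heq, hx]
    ext y
    simp only [Finset.mem_erase, Finset.mem_insert, Finset.mem_singleton]
    constructor
    · rintro ⟨h1, h2 | h2 | h2 | h2⟩ <;> simp_all
    · rintro (h | h | h) <;> subst h <;> simp [hac, hbc, hcd.symm]
  · left
    rw [heq, hx]
    ext y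
    simp only [Finset.mem_erase, Finset.mem_insert, Finset.mem_singleton]
    constructor
    · rintro ⟨h1, h2 | h2 | h2 | h2⟩ <;> simp_all
    · rintro (h | h | h) <;> subst h <;> simp [had, hbd, hcd]

theorem result (S : Type u) (hS : #S = (2 : Cardinal.{u}) ^ ((2 : Cardinal.{u}) ^ ℵ₀)) :
    ∃ C₀ C₁ : Set (Finset S),
      C₀ ∪ C₁ = {t : Finset S | t.card = 3} ∧ Disjoint C₀ C₁ ∧
      ∀ A : Set S, #A = ℵ₁ →
        (∃ Y : Finset S, (∀ y ∈ Y, y ∈ A) ∧ Y.card = 4 ∧ ∀ t ⊆ Y, t.card = 3 → t ∈ C₀) ∧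
        (∃ Y : Finset S, (∀ y ∈ Y, y ∈ A) ∧ Y.card = 4 ∧ ∀ t ⊆ Y, t.card = 3 → t ∈ C₁) := by
  classical
  -- an injection into the functions from the reals to `Bool`
  obtain ⟨e, he⟩ : ∃ e : S → ℝ → Bool, Function.Injective e := by
    have h1 : Cardinal.lift.{0} #S ≤ Cardinal.lift.{u} #(ℝ → Bool) := by
      rw [Cardinal.lift_id'.{0, u}, hS, ← Cardinal.power_def, Cardinal.mk_real, Cardinal.mk_bool,
        Cardinal.lift_power, Cardinal.lift_two, Cardinal.lift_continuum, Cardinal.two_power_aleph0]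
    obtain ⟨f⟩ := Cardinal.lift_mk_le'.1 h1
    exact ⟨f, f.injective⟩
  letI : LinearOrder S := linearOrderOfSTO (WellOrderingRel : S → S → Prop)
  haveI : WellFoundedLT S := ⟨(IsWellFounded.wf (r := (WellOrderingRel : S → S → Prop)))⟩
  refine ⟨{t | t.card = 3 ∧ ∃ x y z : S, x < y ∧ y < z ∧ t = {x, y, z} ∧ col e x y z = false},
    {t | t.card = 3 ∧ ∃ x y z : S, x < y ∧ y < z ∧ t = {x, y, z} ∧ col e x y z = true},
    ?_, ?_, ?_⟩
  · ext t
    simp only [Set.mem_union, Set.mem_ofPred_eq]
    constructor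
    · rintro (h | h) <;> exact h.1
    · intro h3
      have hex : ∃ x y z : S, x < y ∧ y < z ∧ t = {x, y, z} := by
        refine ⟨t.orderEmbOfFin h3 0, t.orderEmbOfFin h3 1, t.orderEmbOfFin h3 2, ?_, ?_, ?_⟩
        · simp
        · simp
        · have h4 : Set.range (t.orderEmbOfFin h3) = ↑t := Finset.range_orderEmbOfFin t h3
          ext y
          rw [← Finset.mem_coe, ← h4, Set.mem_range]
          simp only [Finset.mem_insert, Finset.mem_singleton]
          constructor
          · rintro ⟨j, hj⟩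
            fin_cases j
            · exact Or.inl hj.symm
            · exact Or.inr (Or.inl hj.symm)
            · exact Or.inr (Or.inr hj.symm)
          · rintro (h | h | h)
            · exact ⟨0, h.symm⟩
            · exact ⟨1, h.symm⟩
            · exact ⟨2, h.symm⟩
      obtain ⟨x, y, z, h1, h2, h4⟩ := hex
      rcases hv : col e x y z with _ | _
      · exact Or.inl ⟨h3, x, y, z, h1, h2, h4, hv⟩
      · exact Or.inr ⟨h3, x, y, z, h1, h2, h4, hv⟩
  · rw [Set.disjoint_left]
    rintro t ⟨h3, x, y, z, h1, h2, h4, h5⟩ ⟨-, x', y', z', h1', h2', h4', h5'⟩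
    obtain ⟨r1, r2, r3⟩ := sorted_unique h1 h2 h1' h2' (h4.symm.trans h4')
    rw [r1, r2, r3, h5'] at h5
    exact absurd h5 (by simp)
  · intro A hA
    have hAc : ¬ A.Countable := by
      intro h
      have h1 : #A ≤ ℵ₀ := Cardinal.le_aleph0_iff_set_countable.2 h
      rw [hA] at h1
      exact absurd h1 (not_le.2 Cardinal.aleph0_lt_aleph_one)
    have key : ∀ i : Bool, ∃ Y : Finset S, (∀ y ∈ Y, y ∈ A) ∧ Y.card = 4 ∧
        ∀ t ⊆ Y, t.card = 3 → ∃ x y z : S, x < y ∧ y < z ∧ t = {x, y, z} ∧ col e x y z = i := by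
      intro i
      obtain ⟨w1, m1, w2, m2, w3, m3, w4, m4, l12, l23, l34, c1, c2, c3, c4⟩ :=
        core e he A hAc i
      have l13 := l12.trans l23
      have l24 := l23.trans l34
      have l14 := l12.trans l24
      refine ⟨{w1, w2, w3, w4}, ?_, ?_, ?_⟩
      · intro y hy
        simp only [Finset.mem_insert, Finset.mem_singleton] at hy
        rcases hy with h | h | h | h <;> subst h <;> assumption
      · rw [Finset.card_insert_of_notMem, Finset.card_insert_of_notMem,
          Finset.card_insert_of_notMem, Finset.card_singleton]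
        · simpa using l34.ne
        · simp [l23.ne, l24.ne]
        · simp [l12.ne, l13.ne, l14.ne]
      · intro t ht h3
        rcases sub_four t ht l12.ne l13.ne l14.ne l23.ne l24.ne l34.ne h3 with h | h | h | h
        · exact ⟨w1, w2, w3, l12, l23, h, c1⟩
        · exact ⟨w1, w2, w4, l12, l24, h, c2⟩
        · exact ⟨w1, w3, w4, l13, l34, h, c3⟩
        · exact ⟨w2, w3, w4, l23, l34, h, c4⟩
    obtain ⟨Y0, a1, a2, a3⟩ := key false
    obtain ⟨Y1, b1, b2, b3⟩ := key true
    exact ⟨⟨Y0, a1, a2, fun t ht h3 => ⟨h3, a3 t ht h3⟩⟩,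
      ⟨Y1, b1, b2, fun t ht h3 => ⟨h3, b3 t ht h3⟩⟩⟩

end Pool.Agent.Results.MP_dc3585_lc.Triples
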